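import Pool.Agent.X63.ArcEdges4
import Pool.Agent.X63.ArcComplete2

/-!
Arc `k`-visibility graphs with many edges.
-/

set_option autoImplicit false

namespace Pool.Agent.Results.MP_f73b56_co.ManyEdges

open Pool.Agent.X63 Pool.Agent.X63.SA

/-- the numbers of edges of the arc `k`-visibility graphs on `n` vertices; `e_k(n)` is the
greatest element of this set -/
def EdgeCounts (k n : ℕ) : Set ℕ :=
  {e | ∃ G : SimpleGraph (Fin n), IsArcVis k G ∧ G.edgeSet.ncard = e}

open Pool.Agent.X63.AC in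
/-- the complete graph on at most `5 k + 6` vertices -/
theorem complete (k m : ℕ) (hm : m ≤ 5 * k + 6) : IsArcVis k (⊤ : SimpleGraph (Fin m)) := by
  refine ⟨fun w => w.val + 1, fun w => lw k w.val, fun w => up k w.val, fun v => ⟨by positivity,
    lw_nonneg k v.val, lt_of_le_of_lt (lw_le_up k v.val) (up_lt k v.val),
    by have := lw_le_up k v.val; linarith,
    by have := lw_nonneg k v.val; have := up_lt k v.val; linarith⟩, ?_, ?_⟩
  · intro u v huv
    rw [Set.disjoint_left]
    rintro p ⟨φ, h0, h1, rfl⟩ ⟨ψ, g0, g1, h⟩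
    have hu := up_lt k u.val
    have hv := up_lt k v.val
    have hu' := lw_nonneg k u.val
    have hv' := lw_nonneg k v.val
    obtain ⟨e, _⟩ := rayPt_inj _ _ _ _ (by positivity) (by positivity) (by linarith)
      (by linarith) (by linarith) (by linarith) h
    apply huv
    have e' : (u.val : ℝ) = v.val := by linarith
    exact Fin.ext (by exact_mod_cast e')
  · intro u v huv
    refine ⟨fun _ => ?_, fun _ => (SimpleGraph.top_adj u v).mpr huv⟩
    let ι : Fin m → Fin (5 * k + 6) := Fin.castLE hm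
    have hι : Function.Injective ι := Fin.castLE_injective hm
    have key : ∀ x y : Fin m, x < y → RadVis
        (fun w : Fin m => arcSet ((w.val : ℝ) + 1) (lw k w.val) (up k w.val)) k x y := by
      intro x y hxy
      obtain ⟨s₁, s₂, b₁, b₂, h1, h2, h3, h4, h5, h6, h7⟩ := vis_lt k (ι x) (ι y) hxy
      refine ⟨s₁, s₂, b₁, b₂, h1, h2, h3, h4, h5, h6, le_trans ?_ h7⟩
      rw [← Set.ncard_image_of_injective _ hι]
      apply Set.ncard_le_ncard _ (Set.toFinite _)
      rintro _ ⟨w, ⟨w1, w2, w3⟩, rfl⟩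
      exact ⟨fun e => w1 (hι e), fun e => w2 (hι e), w3⟩
    rcases lt_or_gt_of_ne huv with h | h
    · exact key u v h
    · exact SA.RadVis.symm' (key v u h)

theorem ncard_le_choose {n : ℕ} (G : SimpleGraph (Fin n)) :
    G.edgeSet.ncard ≤ n * (n - 1) / 2 := by
  classical
  have h := G.card_edgeFinset_le_card_choose_two
  rw [Fintype.card_fin, Nat.choose_two_right] at h
  rwa [← SimpleGraph.coe_edgeFinset, Set.ncard_coe_finset]

theorem ncard_top (n : ℕ) : (⊤ : SimpleGraph (Fin n)).edgeSet.ncard = n * (n - 1) / 2 := by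
  classical
  have h := SimpleGraph.card_edgeFinset_top_eq_card_choose_two (V := Fin n)
  rw [Fintype.card_fin, Nat.choose_two_right] at h
  rwa [← SimpleGraph.coe_edgeFinset, Set.ncard_coe_finset]

/-- Write `U = 3 (k + 1) (n - (k + 2) / 2)`.
(1) `e_k(n) = n (n - 1) / 2` for all `n ≤ 5 k + 6`.
(2) For all `n ≥ 5 k + 5` there is an arc `k`-visibility graph on `n` vertices with at least
`U - 2 (k + 1) max (6 k + 6 - n, 0)` edges; so `e_k(n) ≥ U` for all `n ≥ 6 k + 6`. -/
theorem result :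
    (∀ k n : ℕ, n ≤ 5 * k + 6 → IsGreatest (EdgeCounts k n) (n * (n - 1) / 2)) ∧
    (∀ k n : ℕ, 5 * k + 5 ≤ n → ∃ e ∈ EdgeCounts k n,
      3 * (k + 1) * (2 * n) ≤
        2 * e + 3 * (k + 1) * (k + 2) + 2 * (2 * (k + 1) * (6 * k + 6 - n))) := by
  refine ⟨fun k n hn => ⟨⟨⊤, complete k n hn, ncard_top n⟩, ?_⟩, fun k n hn => ?_⟩
  · rintro e ⟨G, _, rfl⟩
    exact ncard_le_choose G
  · refine ⟨_, ⟨AE.gr k n, AE.gr_arc k n, rfl⟩, ?_⟩
    have h := AE.edges_gr k n hn
    linarith

end Pool.Agent.Results.MP_f73b56_co.ManyEdges
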